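import Pool.Agent.Lib.H8.PP.Final

/-!
# Minimally non-ideal matrices whose core is a projective plane

If the core of a minimally non-ideal matrix `A` is the incidence matrix of a non-degenerate
projective plane, then the plane has order two and `A` is its incidence matrix.
-/

set_option autoImplicit false

open scoped Classical

namespace Pool.Agent.Results.MP_df4dc5_co.OnlyFanoCore

universe u v w z

/-- `A` is a `0/1` matrix in which no row is componentwise `≥` another row. -/
def IsClutter {m : Type u} {n : Type v} (A : Matrix m n ℝ) : Prop :=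
  (∀ i j, A i j = 0 ∨ A i j = 1) ∧ ∀ i i', i ≠ i' → ¬ ∀ j, A i' j ≤ A i j

/-- The polyhedron `{x : A x ≥ 1, x ≥ 0}`. -/
def polyhedron {m : Type u} {n : Type v} [Fintype n] (A : Matrix m n ℝ) : Set (n → ℝ) :=
  {x | (∀ i, 1 ≤ ∑ j, A i j * x j) ∧ ∀ j, 0 ≤ x j}

/-- `A` is ideal: all vertices of `{x : A x ≥ 1, x ≥ 0}` are integral. -/
def IsIdeal {m : Type u} {n : Type v} [Fintype n] (A : Matrix m n ℝ) : Prop :=
  ∀ x ∈ Set.extremePoints ℝ (polyhedron A), ∀ j, ∃ k : ℤ, x j = k

/-- The submatrix of `A` with the rows in `R` and the columns in `K`. -/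
def sub {m : Type u} {n : Type v} (A : Matrix m n ℝ) (R : Finset m) (K : Finset n) :
    Matrix {i // i ∈ R} {j // j ∈ K} ℝ :=
  A.submatrix Subtype.val Subtype.val

/-- Of the rows in `R`, restricted to the columns in `K`, dominating rows are removed so that a
clutter matrix, with rows `R'`, remains. -/
def RemoveDominating {m : Type u} {n : Type v} (A : Matrix m n ℝ) (K : Finset n)
    (R R' : Finset m) : Prop :=
  R' ⊆ R ∧ IsClutter (sub A R' K) ∧ ∀ i ∈ R, ∃ i' ∈ R', ∀ j ∈ K, A i' j ≤ A i j

/-- The submatrix with rows `R` and columns `K` is a minor of `A`: it is obtained from `A` by a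
sequence of contractions and deletions of columns. -/
inductive IsMinor {m : Type u} {n : Type v} [Fintype m] [Fintype n] (A : Matrix m n ℝ) :
    Finset m → Finset n → Prop
  | self : IsMinor A Finset.univ Finset.univ
  | contraction (R : Finset m) (K : Finset n) (j : n) (R' : Finset m) : IsMinor A R K → j ∈ K →
      RemoveDominating A (K.erase j) R R' → IsMinor A R' (K.erase j)
  | deletion (R : Finset m) (K : Finset n) (j : n) (R' : Finset m) : IsMinor A R K → j ∈ K →
      RemoveDominating A (K.erase j) (R.filter fun i => A i j ≠ 1) R' → IsMinor A R' (K.erase j)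

/-- `A` is minimally non-ideal: a clutter matrix which is not ideal, all of whose proper minors
are ideal. -/
def IsMNI {m : Type u} {n : Type v} [Fintype m] [Fintype n] (A : Matrix m n ℝ) : Prop :=
  IsClutter A ∧ ¬ IsIdeal A ∧
    ∀ (R : Finset m) (K : Finset n), IsMinor A R K → K ≠ Finset.univ → IsIdeal (sub A R K)

/-- The number of ones in row `i`. -/
noncomputable def ones {m : Type u} {n : Type v} (A : Matrix m n ℝ) (i : m) : ℕ :=
  {j | A i j = 1}.ncard

/-- The rows with the minimum number of ones. -/
def minRows {m : Type u} {n : Type v} (A : Matrix m n ℝ) : Set m :=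
  {i | ∀ i', ones A i ≤ ones A i'}

/-- The core of `A`: the submatrix of the rows with the minimum number of ones. -/
def core {m : Type u} {n : Type v} (A : Matrix m n ℝ) : Matrix (minRows A) n ℝ :=
  A.submatrix Subtype.val id

/-- `A` equals `B` up to permuting (relabelling) rows and columns. -/
def EqUpToPerm {m : Type u} {n : Type v} {m' : Type w} {n' : Type z} (A : Matrix m n ℝ)
    (B : Matrix m' n' ℝ) : Prop :=
  ∃ (e : m ≃ m') (f : n ≃ n'), ∀ i j, A i j = B (e i) (f j)

/-- The incidence matrix: rows are lines, columns are points, entry `1` for incidence. -/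
noncomputable def incidenceMatrix (P : Type u) (L : Type v) [Membership P L] : Matrix L P ℝ :=
  fun l p => if p ∈ l then 1 else 0

/-! ### Minors -/

section Minors

variable {m : Type u} {n : Type v} [Fintype m] [Fintype n] (A : Matrix m n ℝ)

omit [Fintype m] [Fintype n] in
theorem exists_remove (hA : ∀ i j, A i j = 0 ∨ A i j = 1) (K : Finset n) (R : Finset m) :
    ∃ R', RemoveDominating A K R R' := by
  let good : Finset m → Prop := fun R' => R' ⊆ R ∧ ∀ i ∈ R, ∃ i' ∈ R', ∀ j ∈ K, A i' j ≤ A i j
  have hex : ∃ c, ∃ R', good R' ∧ R'.card = c :=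
    ⟨_, R, ⟨Finset.Subset.refl R, fun i hi => ⟨i, hi, fun j _ => le_rfl⟩⟩, rfl⟩
  obtain ⟨R', hR', hc⟩ := Nat.find_spec hex
  refine ⟨R', hR'.1, ⟨fun i j => hA i.1 j.1, ?_⟩, hR'.2⟩
  rintro ⟨i, hi⟩ ⟨i', hi'⟩ hne hle
  have hne' : i ≠ i' := fun h => hne (Subtype.ext h)
  have hlt : (R'.erase i).card < Nat.find hex := by
    rw [← hc]
    exact Finset.card_erase_lt_of_mem hi
  refine Nat.find_min hex hlt ⟨R'.erase i, ⟨(Finset.erase_subset _ _).trans hR'.1, ?_⟩, rfl⟩
  intro k hk
  obtain ⟨k', hk', h1⟩ := hR'.2 k hk
  by_cases hki : k' = i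
  · subst hki
    exact ⟨i', Finset.mem_erase.mpr ⟨hne'.symm, hi'⟩, fun j hj => (hle ⟨j, hj⟩).trans (h1 j hj)⟩
  · exact ⟨k', Finset.mem_erase.mpr ⟨hki, hk'⟩, h1⟩

/-- The rows `R` describe the minor with `I` deleted and `J` contracted. -/
def Good (I J : Finset n) (R : Finset m) : Prop :=
  IsMinor A R (I ∪ J)ᶜ ∧ (∀ i ∈ R, ∀ j ∈ I, A i j = 0) ∧
    ∀ i, (∀ j ∈ I, A i j = 0) → ∃ i' ∈ R, ∀ j ∈ (I ∪ J)ᶜ, A i' j ≤ A i j

theorem exists_good (hA : ∀ i j, A i j = 0 ∨ A i j = 1) (I J : Finset n) (hd : Disjoint I J) :
    ∃ R, Good A I J R := by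
  induction I using Finset.induction_on with
  | empty =>
    clear hd
    induction J using Finset.induction_on with
    | empty =>
      refine ⟨Finset.univ, ?_, fun i _ j hj => absurd hj (Finset.notMem_empty j),
        fun i _ => ⟨i, Finset.mem_univ i, fun j _ => le_rfl⟩⟩
      have : (∅ ∪ ∅ : Finset n)ᶜ = Finset.univ := by simp
      rw [this]
      exact IsMinor.self
    | insert a J ha ih =>
      obtain ⟨R, h1, h2, h3⟩ := ih
      have hK : (∅ ∪ insert a J : Finset n)ᶜ = ((∅ ∪ J : Finset n)ᶜ).erase a := by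
        ext x
        simp only [Finset.empty_union, Finset.mem_compl, Finset.mem_insert, Finset.mem_erase]
        tauto
      obtain ⟨R', hR'⟩ := exists_remove A hA (((∅ ∪ J : Finset n)ᶜ).erase a) R
      refine ⟨R', ?_, fun i _ j hj => absurd hj (Finset.notMem_empty j), ?_⟩
      · rw [hK]
        exact IsMinor.contraction R _ a R' h1 (by simpa using ha) hR'
      · intro i hi
        obtain ⟨i', hi', hle⟩ := h3 i hi
        obtain ⟨i'', hi'', hle'⟩ := hR'.2.2 i' hi'
        refine ⟨i'', hi'', fun j hj => ?_⟩
        rw [hK] at hj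
        exact (hle' j hj).trans (hle j (Finset.mem_of_mem_erase hj))
  | insert a I ha ih =>
    rw [Finset.disjoint_insert_left] at hd
    obtain ⟨R, h1, h2, h3⟩ := ih hd.2
    have hK : (insert a I ∪ J : Finset n)ᶜ = ((I ∪ J : Finset n)ᶜ).erase a := by
      ext x
      simp only [Finset.insert_union, Finset.mem_compl, Finset.mem_insert, Finset.mem_erase]
      tauto
    have haK : a ∈ (I ∪ J : Finset n)ᶜ := by
      simp only [Finset.mem_compl, Finset.mem_union]
      tauto
    obtain ⟨R', hR'⟩ := exists_remove A hA (((I ∪ J : Finset n)ᶜ).erase a)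
      (R.filter fun i => A i a ≠ 1)
    refine ⟨R', ?_, ?_, ?_⟩
    · rw [hK]
      exact IsMinor.deletion R _ a R' h1 haK hR'
    · intro i hi j hj
      have hi' := Finset.mem_filter.mp (hR'.1 hi)
      rcases Finset.mem_insert.mp hj with rfl | hj
      · exact (hA i j).resolve_right hi'.2
      · exact h2 i hi'.1 j hj
    · intro i hi
      obtain ⟨i', hi', hle⟩ := h3 i fun j hj => hi j (Finset.mem_insert_of_mem hj)
      have h0 : A i a = 0 := hi a (Finset.mem_insert_self a I)
      have h0' : A i' a ≠ 1 := by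
        intro h
        have := hle a haK
        rw [h, h0] at this
        linarith
      obtain ⟨i'', hi'', hle'⟩ := hR'.2.2 i' (Finset.mem_filter.mpr ⟨hi', h0'⟩)
      refine ⟨i'', hi'', fun j hj => ?_⟩
      rw [hK] at hj
      exact (hle' j hj).trans (hle j (Finset.mem_of_mem_erase hj))

/-- The set of columns with a `1` in row `i`. -/
noncomputable def supp (i : m) : Finset n := Finset.univ.filter fun j => A i j = 1

/-- The rows as sets of columns. -/
noncomputable def clutter : Finset (Finset n) := Finset.univ.image (supp A)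

omit [Fintype m] in
theorem sum_supp (hA : ∀ i j, A i j = 0 ∨ A i j = 1) (i : m) (x : n → ℝ) :
    ∑ j ∈ supp A i, x j = ∑ j, A i j * x j := by
  rw [supp, Finset.sum_filter]
  refine Finset.sum_congr rfl fun j _ => ?_
  rcases hA i j with h | h <;> simp [h]

theorem minorsIdeal (hA : IsClutter A)
    (hm : ∀ (R : Finset m) (K : Finset n), IsMinor A R K → K ≠ Finset.univ →
      IsIdeal (sub A R K)) : Pool.Agent.H8.PP.MinorsIdeal (clutter A) := by
  intro I J hd hne x hx
  obtain ⟨R, hmin, hRI, hdom⟩ := exists_good A hA.1 I J hd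
  set K : Finset n := (I ∪ J)ᶜ with hKdef
  have hK : K ≠ Finset.univ := by
    obtain ⟨a, ha⟩ := hne
    intro h
    have : a ∈ K := h ▸ Finset.mem_univ a
    rw [hKdef, Finset.mem_compl] at this
    exact this ha
  have hid := hm R K hmin hK
  have hxP := hx.1
  have hx0 : ∀ j, j ∉ K → x j = 0 := by
    intro j hj
    rw [hKdef, Finset.mem_compl, not_not] at hj
    exact hxP.2.1 j hj
  -- extension by zero
  let ext : ({j // j ∈ K} → ℝ) → n → ℝ := fun y j => if h : j ∈ K then y ⟨j, h⟩ else 0
  have hext : ∀ (y : {j // j ∈ K} → ℝ) (i : m),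
      ∑ j ∈ supp A i, ext y j = ∑ j : {j // j ∈ K}, A i j.1 * y j := by
    intro y i
    rw [sum_supp A hA.1, ← Finset.sum_subset (Finset.subset_univ K)]
    · rw [← Finset.sum_coe_sort K]
      refine Finset.sum_congr rfl fun j _ => ?_
      simp only [ext, j.2, dif_pos]
    · intro j _ hj
      simp only [ext, hj, dif_neg, not_false_eq_true, mul_zero]
  have hxe : ext (fun j => x j.1) = x := by
    funext j
    by_cases hj : j ∈ K
    · simp only [ext, hj, dif_pos]
    · simp only [ext, hj, dif_neg, not_false_eq_true, hx0 j hj]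
  have hin : ∀ y ∈ polyhedron (sub A R K), ext y ∈ Pool.Agent.H8.PP.poly (clutter A) I J := by
    intro y hy
    refine ⟨fun j => ?_, fun j hj => ?_, fun S hS hdS => ?_⟩
    · by_cases hj : j ∈ K
      · simp only [ext, hj, dif_pos]
        exact hy.2 _
      · simp only [ext, hj, dif_neg, not_false_eq_true, le_refl]
    · have : j ∉ K := by
        rw [hKdef, Finset.mem_compl, not_not]
        exact hj
      simp only [ext, this, dif_neg, not_false_eq_true]
    · obtain ⟨i, -, rfl⟩ := Finset.mem_image.mp hS
      rw [hext y i]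
      have hi : ∀ j ∈ I, A i j = 0 := by
        intro j hj
        refine (hA.1 i j).resolve_right fun h1 => ?_
        exact Finset.disjoint_left.mp hdS (Finset.mem_filter.mpr ⟨Finset.mem_univ j, h1⟩) hj
      obtain ⟨i', hi', hle⟩ := hdom i hi
      refine (hy.1 ⟨i', hi'⟩).trans (Finset.sum_le_sum fun j _ => ?_)
      exact mul_le_mul_of_nonneg_right (hle j.1 j.2) (hy.2 j)
  have hx' : (fun j : {j // j ∈ K} => x j.1) ∈ Set.extremePoints ℝ (polyhedron (sub A R K)) := by
    rw [mem_extremePoints]
    refine ⟨⟨fun i => ?_, fun j => hxP.1 j.1⟩, ?_⟩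
    · have h1 := hext (fun j => x j.1) i.1
      rw [hxe] at h1
      have h2 : (1 : ℝ) ≤ ∑ j ∈ supp A i.1, x j := by
        refine hxP.2.2 (supp A i.1) (Finset.mem_image_of_mem _ (Finset.mem_univ _)) ?_
        rw [Finset.disjoint_left]
        intro j hj hjI
        have h3 := (Finset.mem_filter.mp hj).2
        rw [hRI i.1 i.2 j hjI] at h3
        exact zero_ne_one h3
      rw [h1] at h2
      exact h2
    · intro y hy z hz hseg
      have hseg' : x ∈ openSegment ℝ (ext y) (ext z) := by
        obtain ⟨a, b, ha, hb, hab, he⟩ := hseg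
        refine ⟨a, b, ha, hb, hab, ?_⟩
        rw [← hxe, ← he]
        funext j
        by_cases hj : j ∈ K
        · simp only [ext, hj, dif_pos, Pi.add_apply, Pi.smul_apply]
        · simp only [ext, hj, dif_neg, not_false_eq_true, Pi.add_apply, Pi.smul_apply,
            smul_zero, add_zero]
      have h1 := (mem_extremePoints.mp hx).2 (ext y) (hin y hy) (ext z) (hin z hz) hseg'
      refine ⟨?_, ?_⟩
      · funext j
        have h2 := congrFun h1.1 j.1
        simp only [ext, j.2, dif_pos] at h2
        exact h2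
      · funext j
        have h2 := congrFun h1.2 j.1
        simp only [ext, j.2, dif_pos] at h2
        exact h2
  intro j
  by_cases hj : j ∈ K
  · exact hid _ hx' ⟨j, hj⟩
  · exact ⟨0, by rw [hx0 j hj]; simp⟩

end Minors

/-! ### The plane -/

section Plane

open Configuration Configuration.ProjectivePlane

variable {n : Type v} [Fintype n] {P : Type w} {L : Type z} [Membership P L]

/-- The points of the line `l`, as a set of columns. -/
noncomputable def lineSet (f : n ≃ P) (l : L) : Finset n := Finset.univ.filter fun j => f j ∈ l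

theorem mem_lineSet (f : n ≃ P) (l : L) (j : n) : j ∈ lineSet f l ↔ f j ∈ l := by
  simp [lineSet]

variable [ProjectivePlane P L] [Finite P] [Finite L]

theorem card_lineSet (f : n ≃ P) (l : L) : (lineSet f l).card = order P L + 1 := by
  rw [← pointCount_eq P l, pointCount]
  have e : {j // j ∈ lineSet f l} ≃ {p : P // p ∈ l} :=
    f.subtypeEquiv fun j => mem_lineSet f l j
  rw [← Nat.card_congr e, Nat.card_eq_fintype_card, Fintype.card_coe]

theorem lineSet_injective (f : n ≃ P) : Function.Injective (lineSet f : L → Finset n) := by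
  intro l l' h
  by_contra hne
  have h1 : 1 < (lineSet f l).card := by
    rw [card_lineSet]
    have := one_lt_order P L
    omega
  obtain ⟨a, ha, b, hb, hab⟩ := Finset.one_lt_card.mp h1
  have ha' := h ▸ ha
  have hb' := h ▸ hb
  rw [mem_lineSet] at ha hb ha' hb'
  rcases Nondegenerate.eq_or_eq ha hb ha' hb' with h2 | h2
  · exact hab (f.injective h2)
  · exact hne h2

theorem isPlane [Fintype L] (f : n ≃ P) :
    Pool.Agent.H8.PP.IsPlane ((Finset.univ : Finset L).image (lineSet f)) (order P L) := by
  have hinj := lineSet_injective (L := L) f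
  refine ⟨?_, ?_, ?_, ?_, ?_, ?_⟩
  · intro ℓ hℓ
    obtain ⟨l, -, rfl⟩ := Finset.mem_image.mp hℓ
    exact card_lineSet f l
  · intro x
    have h1 : ((Finset.univ : Finset L).image (lineSet f)).filter (fun ℓ => x ∈ ℓ)
        = ((Finset.univ : Finset L).filter fun l => f x ∈ l).image (lineSet f) := by
      ext ℓ
      simp only [Finset.mem_filter, Finset.mem_image, Finset.mem_univ, true_and]
      constructor
      · rintro ⟨⟨l, rfl⟩, hx⟩
        exact ⟨l, (mem_lineSet f l x).mp hx, rfl⟩
      · rintro ⟨l, hl, rfl⟩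
        exact ⟨⟨l, rfl⟩, (mem_lineSet f l x).mpr hl⟩
    rw [h1, Finset.card_image_of_injective _ hinj, ← lineCount_eq (P := P) L (f x), lineCount,
      Nat.card_eq_fintype_card, Fintype.card_subtype]
  · intro x y hxy
    have hne : f x ≠ f y := fun h => hxy (f.injective h)
    obtain ⟨h1, h2⟩ := HasLines.mkLine_ax (L := L) hne
    exact ⟨_, Finset.mem_image_of_mem _ (Finset.mem_univ _), (mem_lineSet f _ x).mpr h1,
      (mem_lineSet f _ y).mpr h2⟩
  · intro ℓ hℓ m hm hne
    obtain ⟨l, -, rfl⟩ := Finset.mem_image.mp hℓ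
    obtain ⟨l', -, rfl⟩ := Finset.mem_image.mp hm
    have hll : l ≠ l' := fun h => hne (h ▸ rfl)
    obtain ⟨h1, h2⟩ := HasPoints.mkPoint_ax (P := P) hll
    rw [Finset.card_eq_one]
    refine ⟨f.symm (HasPoints.mkPoint hll), ?_⟩
    ext j
    simp only [Finset.mem_inter, mem_lineSet, Finset.mem_singleton]
    constructor
    · rintro ⟨h3, h4⟩
      rcases Nondegenerate.eq_or_eq h3 h1 h4 h2 with h5 | h5
      · rw [← h5, Equiv.symm_apply_apply]
      · exact absurd h5 hll
    · rintro rfl
      rw [Equiv.apply_symm_apply]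
      exact ⟨h1, h2⟩
  · have := Fintype.ofFinite P
    rw [Fintype.card_congr f, card_points P L]
  · rw [Finset.card_image_of_injective _ hinj, Finset.card_univ, card_lines P L]

end Plane

/-- In a clutter with ideal proper minors whose smallest members are the lines of a plane of order
two, all members are lines. -/
theorem all_lines {n : Type v} [Fintype n] {C Ls : Finset (Finset n)}
    (h : Pool.Agent.H8.PP.Core C Ls 2) : ∀ S ∈ C, S ∈ Ls := by
  intro S hS
  by_contra hSL
  have hbl := h.blocking (by norm_num) hS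
  have hno := h.no_line hS hSL
  have h1 := h.plane.two_le_excess (by norm_num) hbl hno
  have h2 := h.plane.two_le_excess (S := Sᶜ) (by norm_num)
    (fun ℓ hℓ => by
      obtain ⟨x, hx, hxS⟩ := Finset.not_subset.mp (hno ℓ hℓ)
      exact ⟨x, Finset.mem_inter.mpr ⟨Finset.mem_compl.mpr hxS, hx⟩⟩)
    (fun ℓ hℓ hsub => by
      obtain ⟨x, hx⟩ := hbl ℓ hℓ
      have hx' := Finset.mem_inter.mp hx
      exact Finset.mem_compl.mp (hsub hx'.2) hx'.1)
  have h3 := Finset.card_add_card_compl S
  rw [h.plane.card_pts] at h3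
  omega

/-- If the core of a minimally non-ideal matrix `A` is, up to permuting rows and columns, the
incidence matrix of a projective plane, then this plane has order two, and `A` itself is its
incidence matrix up to permuting rows and columns. -/
theorem result {m : Type u} {n : Type v} [Fintype m] [Fintype n] (A : Matrix m n ℝ)
    (hA : IsMNI A) (P : Type w) (L : Type z) [Membership P L]
    [Configuration.ProjectivePlane P L] (hcore : EqUpToPerm (core A) (incidenceMatrix P L)) :
    Configuration.ProjectivePlane.order P L = 2 ∧ EqUpToPerm A (incidenceMatrix P L) := by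
  obtain ⟨hcl, -, hmin⟩ := hA
  obtain ⟨e, f, hef⟩ := hcore
  have : Finite P := Finite.of_equiv n f
  have : Finite (minRows A) := Subtype.finite
  have : Finite L := Finite.of_equiv _ e
  have := Fintype.ofFinite L
  set q := Configuration.ProjectivePlane.order P L with hq
  -- the rows of the core
  have hrow : ∀ i : minRows A, supp A i.1 = lineSet f (e i) := by
    intro i
    ext j
    rw [mem_lineSet, supp, Finset.mem_filter]
    have h1 : A i.1 j = if f j ∈ e i then 1 else 0 := hef i j
    rw [h1]
    by_cases h2 : f j ∈ e i <;> simp [h2]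
  have hones : ∀ i : m, ones A i = (supp A i).card := by
    intro i
    rw [ones, supp, ← Set.ncard_coe_finset]
    congr 1
    ext j
    simp
  have hinj : ∀ i i', supp A i ⊆ supp A i' → i = i' := by
    intro i i' hsub
    by_contra hne
    refine hcl.2 i' i (fun h => hne h.symm) fun j => ?_
    rcases hcl.1 i j with h | h
    · rw [h]
      rcases hcl.1 i' j with h' | h' <;> simp [h']
    · have : j ∈ supp A i' := hsub (Finset.mem_filter.mpr ⟨Finset.mem_univ j, h⟩)
      rw [h, (Finset.mem_filter.mp this).2]
  -- there is a row in the core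
  obtain ⟨l0⟩ : Nonempty L := by
    obtain ⟨-, -, -, l, -⟩ := Configuration.ProjectivePlane.exists_config (P := P) (L := L)
    exact ⟨l⟩
  have hcardmin : ∀ i : minRows A, (supp A i.1).card = q + 1 := by
    intro i
    rw [hrow i, card_lineSet]
  have hsize : ∀ i : m, q + 1 ≤ (supp A i).card := by
    intro i
    have h1 := (e.symm l0).2 i
    rw [hones, hones, hcardmin] at h1
    exact h1
  have hmem : ∀ i : m, (supp A i).card = q + 1 → i ∈ minRows A := by
    intro i hi i'
    rw [hones, hones, hi]
    exact hsize i'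
  have hcoreC : Pool.Agent.H8.PP.Core (clutter A) ((Finset.univ : Finset L).image (lineSet f))
      q := by
    refine ⟨isPlane f, minorsIdeal A hcl hmin, ?_, ?_, ?_, ?_⟩
    · intro S hS
      obtain ⟨l, -, rfl⟩ := Finset.mem_image.mp hS
      have h1 := hrow (e.symm l)
      rw [Equiv.apply_symm_apply] at h1
      rw [← h1]
      exact Finset.mem_image_of_mem _ (Finset.mem_univ _)
    · intro S hS
      obtain ⟨i, -, rfl⟩ := Finset.mem_image.mp hS
      exact hsize i
    · intro S hS hc
      obtain ⟨i, -, rfl⟩ := Finset.mem_image.mp hS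
      rw [hrow ⟨i, hmem i hc⟩]
      exact Finset.mem_image_of_mem _ (Finset.mem_univ _)
    · intro S hS T hT hST
      obtain ⟨i, -, rfl⟩ := Finset.mem_image.mp hS
      obtain ⟨i', -, rfl⟩ := Finset.mem_image.mp hT
      rw [hinj i i' hST]
  have hq2 : q = 2 := by
    have h1 : 1 < q := Configuration.ProjectivePlane.one_lt_order P L
    by_contra hne
    exact hcoreC.false (by omega)
  refine ⟨hq2, ?_⟩
  rw [hq2] at hcoreC
  have hall : ∀ i : m, i ∈ minRows A := by
    intro i
    refine hmem i ?_
    have h1 := all_lines hcoreC (supp A i) (Finset.mem_image_of_mem _ (Finset.mem_univ i))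
    rw [hcoreC.plane.card_line _ h1, hq2]
  refine ⟨(Equiv.subtypeUnivEquiv hall).symm.trans e, f, fun i j => ?_⟩
  exact hef ⟨i, hall i⟩ j

end Pool.Agent.Results.MP_df4dc5_co.OnlyFanoCore
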